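import Pool.Agent.N250.GAP.RoundL

set_option autoImplicit false

/-!
# From the tube inequality to lower bounds for the volume of sets
-/

open MeasureTheory Set ENNReal NNReal Metric

namespace Pool.Agent.N240.KT

/-- Hölder's inequality on a set of finite measure -/
theorem sum_inter_le {X ι : Type} [MeasurableSpace X] (μ : Measure X) (T : ι → Set X)
    (hT : ∀ i, MeasurableSet (T i)) (J : Finset ι) {q : ℝ} (hq : 1 < q) {B : ℝ≥0∞}
    (hB : eLpNorm (fun y => ∑ i ∈ J, (T i).indicator (fun _ => (1 : ℝ)) y) (ENNReal.ofReal q) μ ≤ B)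
    (E : Set X) (hE : MeasurableSet E) :
    ∑ i ∈ J, μ (T i ∩ E) ≤ B * μ E ^ (1 - 1 / q) := by
  set f : X → ℝ := fun y => ∑ i ∈ J, (T i).indicator (fun _ => (1 : ℝ)) y with hf
  have hfm : Measurable f := by
    apply Finset.measurable_sum
    intro i _
    exact measurable_const.indicator (hT i)
  have hnn : ∀ y, 0 ≤ f y := fun y => Finset.sum_nonneg fun i _ => indicator_nonneg (fun _ _ => zero_le_one) _
  have h1 : ∑ i ∈ J, μ (T i ∩ E) = ∫⁻ y in E, ‖f y‖ₑ ∂μ := by
    have e1 : ∀ y, ‖f y‖ₑ = ∑ i ∈ J, (T i).indicator (fun _ => (1 : ℝ≥0∞)) y := by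
      intro y
      rw [Real.enorm_of_nonneg (hnn y), hf]
      simp only
      rw [ENNReal.ofReal_sum_of_nonneg (fun i _ => indicator_nonneg (fun _ _ => zero_le_one) _)]
      apply Finset.sum_congr rfl
      intro i _
      by_cases hy : y ∈ T i
      · simp [hy]
      · simp [hy]
    simp only [e1]
    rw [lintegral_finset_sum _ (fun i _ => measurable_const.indicator (hT i))]
    apply Finset.sum_congr rfl
    intro i _
    rw [lintegral_indicator (hT i), setLIntegral_one, Measure.restrict_apply (hT i)]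
  have h2 : ∫⁻ y in E, ‖f y‖ₑ ∂μ = eLpNorm f 1 (μ.restrict E) := by
    rw [eLpNorm_one_eq_lintegral_enorm]
  have hq0 : (0 : ℝ) < q := by linarith
  have h3 : eLpNorm f 1 (μ.restrict E) ≤ eLpNorm f (ENNReal.ofReal q) (μ.restrict E) *
      (μ.restrict E) univ ^ (1 / (1 : ℝ≥0∞).toReal - 1 / (ENNReal.ofReal q).toReal) := by
    apply eLpNorm_le_eLpNorm_mul_rpow_measure_univ
    · rw [ENNReal.one_le_ofReal]; exact hq.le
    · exact hfm.aestronglyMeasurable
  rw [Measure.restrict_apply_univ, ENNReal.toReal_one, ENNReal.toReal_ofReal hq0.le, div_one] at h3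
  rw [h1, h2]
  refine h3.trans ?_
  gcongr
  exact (eLpNorm_mono_measure f Measure.restrict_le_self).trans hB

/-- the numerical part -/
theorem real_part {d : ℕ} (hd : 1 ≤ d) {ε a C : ℝ} (hε : 0 < ε) (hε1 : ε < 1) (ha : 0 < a) (hC : 0 < C)
    {q : ℝ} (hq : q = 1 + 1 / (d * (1 - ε))) {δ lam N m : ℝ} (hδ : 0 < δ) (hl : 0 ≤ lam) (hl1 : lam ≤ 1)
    (hN : 0 < N) (hm : 0 ≤ m)
    (h : lam * (a * δ ^ d) * N ≤ C * δ ^ ((d : ℝ) / q) * N ^ (1 - 1 / (q * d)) * m ^ (1 - 1 / q)) :
    min 1 ((a / C) ^ (d + 1)) * lam ^ (d + 1) * δ ^ d * N ^ (1 - ε) ≤ m := by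
  have hd0 : (0 : ℝ) < d := by exact_mod_cast hd
  have he : 0 < 1 - ε := by linarith
  have hde : 0 < (d : ℝ) * (1 - ε) := mul_pos hd0 he
  have hq1 : 1 < q := by
    rw [hq]
    have : 0 < 1 / (d * (1 - ε)) := by positivity
    linarith
  have hq0 : 0 < q := by linarith
  set θ : ℝ := 1 - 1 / q with hθ
  have hθ0 : 0 < θ := by
    rw [hθ]
    have : 1 / q < 1 := by rw [div_lt_one hq0]; exact hq1
    linarith
  -- the main quotient
  have e1 : θ = 1 / (d * (1 - ε) + 1) := by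
    rw [hθ, hq]
    field_simp
    ring
  have hP : 0 < (d : ℝ) * (1 - ε) + 1 := by linarith
  have key : lam * (a / C) * δ ^ ((d : ℝ) * θ) * N ^ (1 / (q * d)) ≤ m ^ θ := by
    have hA : 0 < C * δ ^ ((d : ℝ) / q) * N ^ (1 - 1 / (q * d)) := by positivity
    have h2 : lam * (a / C) * δ ^ ((d : ℝ) * θ) * N ^ (1 / (q * d)) =
        (lam * (a * δ ^ d) * N) / (C * δ ^ ((d : ℝ) / q) * N ^ (1 - 1 / (q * d))) := by
      rw [eq_div_iff hA.ne']
      have e2 : δ ^ ((d : ℝ) * θ) * δ ^ ((d : ℝ) / q) = δ ^ d := by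
        rw [← Real.rpow_add hδ, ← Real.rpow_natCast]
        congr 1
        rw [hθ]
        field_simp
        ring
      have e3 : N ^ (1 / (q * d)) * N ^ (1 - 1 / (q * d)) = N := by
        rw [← Real.rpow_add hN]
        conv_rhs => rw [← Real.rpow_one N]
        congr 1
        ring
      calc lam * (a / C) * δ ^ ((d : ℝ) * θ) * N ^ (1 / (q * d)) *
            (C * δ ^ ((d : ℝ) / q) * N ^ (1 - 1 / (q * d)))
          = lam * ((a / C) * C) * (δ ^ ((d : ℝ) * θ) * δ ^ ((d : ℝ) / q)) *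
            (N ^ (1 / (q * d)) * N ^ (1 - 1 / (q * d))) := by ring
        _ = _ := by rw [e2, e3, div_mul_cancel₀ _ hC.ne']; ring
    rw [h2, div_le_iff₀ hA]
    linarith [h]
  have hL0 : 0 ≤ lam * (a / C) * δ ^ ((d : ℝ) * θ) * N ^ (1 / (q * d)) := by positivity
  have h3 : (lam * (a / C) * δ ^ ((d : ℝ) * θ) * N ^ (1 / (q * d))) ^ (1 / θ) ≤ m := by
    calc _ ≤ (m ^ θ) ^ (1 / θ) := Real.rpow_le_rpow hL0 key (by positivity)
      _ = m := by rw [← Real.rpow_mul hm, mul_one_div_cancel hθ0.ne', Real.rpow_one]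
  have hac : 0 < a / C := by positivity
  have h4 : (lam * (a / C) * δ ^ ((d : ℝ) * θ) * N ^ (1 / (q * d))) ^ (1 / θ) =
      lam ^ (1 / θ) * (a / C) ^ (1 / θ) * δ ^ d * N ^ (1 - ε) := by
    rw [Real.mul_rpow (by positivity) (by positivity), Real.mul_rpow (by positivity) (by positivity),
      Real.mul_rpow hl hac.le, ← Real.rpow_mul hδ.le, ← Real.rpow_mul hN.le]
    congr 2
    · rw [← Real.rpow_natCast]
      congr 1
      rw [mul_assoc, mul_one_div_cancel hθ0.ne', mul_one]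
    · rw [e1, hq]
      field_simp
  have hinv : 1 / θ = d * (1 - ε) + 1 := by rw [e1, one_div_one_div]
  have h5 : lam ^ (d + 1) ≤ lam ^ (1 / θ) := by
    rw [hinv, ← Real.rpow_natCast]
    rcases hl.eq_or_lt with h0 | h0
    · rw [← h0, Real.zero_rpow (by positivity), Real.zero_rpow (by positivity)]
    · apply Real.rpow_le_rpow_of_exponent_ge h0 hl1
      push_cast
      nlinarith
  have h6 : min 1 ((a / C) ^ (d + 1)) ≤ (a / C) ^ (1 / θ) := by
    rw [hinv]
    rcases le_total (a / C) 1 with h7 | h7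
    · refine (min_le_right _ _).trans ?_
      rw [← Real.rpow_natCast]
      apply Real.rpow_le_rpow_of_exponent_ge hac h7
      push_cast
      nlinarith
    · refine (min_le_left _ _).trans ?_
      exact Real.one_le_rpow h7 hP.le
  calc min 1 ((a / C) ^ (d + 1)) * lam ^ (d + 1) * δ ^ d * N ^ (1 - ε)
      ≤ (a / C) ^ (1 / θ) * lam ^ (1 / θ) * δ ^ d * N ^ (1 - ε) := by
        have : 0 ≤ lam ^ (d + 1) := by positivity
        gcongr
    _ = lam ^ (1 / θ) * (a / C) ^ (1 / θ) * δ ^ d * N ^ (1 - ε) := by ring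
    _ ≤ m := by rw [← h4]; exact h3

end Pool.Agent.N240.KT
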